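import Pool.Agent.Helper93.T4.Defs

namespace Pool.Agent.Helper93.T4

open Set

lemma RankOneConvex.le {f : Pt → ℝ} (hf : RankOneConvex f) {A B : Pt}
    (hAB : IsRankOneDir (B - A)) {a b : ℝ} (ha : 0 ≤ a) (hb : 0 ≤ b) (hab : a + b = 1) :
    f (a • A + b • B) ≤ a * f A + b * f B := by
  have h := (hf A (B - A) hAB).2 (mem_univ (0:ℝ)) (mem_univ (1:ℝ)) ha hb hab
  simp only [smul_eq_mul, mul_zero, mul_one, zero_add, zero_smul, add_zero, one_smul,
    add_sub_cancel] at h
  have e : A + b • (B - A) = a • A + b • B := by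
    have : a = 1 - b := by linarith
    subst this
    rw [smul_sub, sub_smul, one_smul]; abel
  rw [e] at h
  exact h

lemma RankOneConvex.sup {f g : Pt → ℝ} (hf : RankOneConvex f) (hg : RankOneConvex g) :
    RankOneConvex (fun A => max (f A) (g A)) := by
  intro A v hv
  exact (hf A v hv).sup (hg A v hv)

lemma RankOneConvex.add {f g : Pt → ℝ} (hf : RankOneConvex f) (hg : RankOneConvex g) :
    RankOneConvex (fun A => f A + g A) := by
  intro A v hv
  exact (hf A v hv).add (hg A v hv)

lemma RankOneConvex.const (c : ℝ) : RankOneConvex (fun _ => c) := by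
  intro A v _
  exact convexOn_const c convex_univ

lemma RankOneConvex.smul {f : Pt → ℝ} (hf : RankOneConvex f) {c : ℝ} (hc : 0 ≤ c) :
    RankOneConvex (fun A => c * f A) := by
  intro A v hv
  exact (hf A v hv).smul hc

/-- If `g ≤ 0` on `S` is rank-one convex, then `g ≤ 0` on the hull. -/
lemma rcHull_le {S : Set Pt} {g : Pt → ℝ} (hg : RankOneConvex g) (h : ∀ B ∈ S, g B ≤ 0)
    {X : Pt} (hX : X ∈ rcHull S) : g X ≤ 0 := by
  have := hX (fun A => max (g A) 0) (hg.sup (RankOneConvex.const 0))
    (fun B hB => max_eq_right (h B hB))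
  exact (le_max_left _ _).trans this

lemma rcHull_mono {S T : Set Pt} (h : S ⊆ T) : rcHull S ⊆ rcHull T :=
  fun _ hX f hf h0 => hX f hf (fun B hB => h0 B (h hB))

lemma subset_rcHull (S : Set Pt) : S ⊆ rcHull S :=
  fun X hX _ _ h0 => (h0 X hX).le

/-- The face lemma: if `g ≤ 0` on the finite set `S` and `g X = 0` at a point of the hull, then
`X` is in the hull of the points of `S` at which `g = 0`. -/
lemma rcHull_face {S : Finset Pt} {g : Pt → ℝ} (hg : RankOneConvex g)
    (h : ∀ B ∈ S, g B ≤ 0) {X : Pt} (hX : X ∈ rcHull (S : Set Pt)) (hX0 : g X = 0) :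
    X ∈ rcHull {B | B ∈ S ∧ g B = 0} := by
  classical
  intro f hf h0
  -- choose N
  have hN : ∃ N : ℝ, 0 ≤ N ∧ ∀ B ∈ S, g B < 0 → f B + N * g B ≤ 0 := by
    have : ∀ T : Finset Pt, (∀ B ∈ T, g B ≤ 0) →
        ∃ N : ℝ, 0 ≤ N ∧ ∀ B ∈ T, g B < 0 → f B + N * g B ≤ 0 := by
      intro T
      induction T using Finset.induction_on with
      | empty => intro _; exact ⟨0, le_rfl, by simp⟩
      | insert a T ha ih =>
        intro hT
        obtain ⟨N, hN0, hN⟩ := ih (fun B hB => hT B (Finset.mem_insert_of_mem hB))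
        refine ⟨N + |f a| / |g a|, by positivity, ?_⟩
        intro B hB hB0
        rcases Finset.mem_insert.1 hB with rfl | hB
        · have h1 : |g B| = - g B := abs_of_neg hB0
          rw [h1]
          have h2 : (N + |f B| / -g B) * g B = N * g B - |f B| := by
            have hne : g B ≠ 0 := hB0.ne
            have : |f B| / -g B * g B = -|f B| := by
              rw [div_neg, neg_mul, div_mul_cancel₀ _ hne]
            rw [add_mul, this]; ring
          rw [h2]
          have := le_abs_self (f B)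
          nlinarith
        · have h1 := hN B hB hB0
          have h2 : 0 ≤ |f a| / |g a| := by positivity
          nlinarith
    exact this S h
  obtain ⟨N, hN0, hN⟩ := hN
  have key : f X + N * g X ≤ 0 := by
    refine rcHull_le (hf.add (hg.smul hN0)) ?_ hX
    intro B hB
    rcases (h B hB).lt_or_eq with hlt | heq
    · exact hN B hB hlt
    · have := h0 B ⟨hB, heq⟩
      simp [this, heq]
  rw [hX0, mul_zero, add_zero] at key
  exact key

/-- `z` minus a separately concave function of `(x, y)` is rank-one convex. -/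
lemma rankOneConvex_sub {Φ : ℝ → ℝ → ℝ} (c : ℝ)
    (h1 : ∀ y, ConcaveOn ℝ univ (fun x => Φ x y)) (h2 : ∀ x, ConcaveOn ℝ univ (fun y => Φ x y)) :
    RankOneConvex (fun A => c * A.2.2 - Φ A.1 A.2.1) := by
  intro A v hv
  obtain ⟨-, hv⟩ := hv
  refine ⟨convex_univ, ?_⟩
  intro s _ t _ a b ha hb hab
  simp only [Prod.fst_add, Prod.snd_add, Prod.smul_fst, Prod.smul_snd, smul_eq_mul]
  rcases mul_eq_zero.1 hv with h | h
  · have := (h2 A.1).2 (mem_univ (A.2.1 + s * v.2.1)) (mem_univ (A.2.1 + t * v.2.1)) ha hb hab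
    simp only [smul_eq_mul] at this
    have e : a * (A.2.1 + s * v.2.1) + b * (A.2.1 + t * v.2.1)
        = A.2.1 + (a * s + b * t) * v.2.1 := by
      have : a = 1 - b := by linarith
      subst this; ring
    rw [e] at this
    rw [h]
    simp only [mul_zero, add_zero]
    have e2 : c * (A.2.2 + (a * s + b * t) * v.2.2)
        = a * (c * (A.2.2 + s * v.2.2)) + b * (c * (A.2.2 + t * v.2.2)) := by
      have : a = 1 - b := by linarith
      subst this; ring
    rw [e2]
    linarith
  · have := (h1 A.2.1).2 (mem_univ (A.1 + s * v.1)) (mem_univ (A.1 + t * v.1)) ha hb hab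
    simp only [smul_eq_mul] at this
    have e : a * (A.1 + s * v.1) + b * (A.1 + t * v.1)
        = A.1 + (a * s + b * t) * v.1 := by
      have : a = 1 - b := by linarith
      subst this; ring
    rw [e] at this
    rw [h]
    simp only [mul_zero, add_zero]
    have e2 : c * (A.2.2 + (a * s + b * t) * v.2.2)
        = a * (c * (A.2.2 + s * v.2.2)) + b * (c * (A.2.2 + t * v.2.2)) := by
      have : a = 1 - b := by linarith
      subst this; ring
    rw [e2]
    linarith

/-- `(1, 1, 0)` is in the rank-one convex hull of the six points. -/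
lemma mem_rcHull_K6 : ((1, 1, 0) : Pt) ∈ rcHull K6 := by
  intro f hf h0
  have hA : f (5, 3, -2) = 0 := h0 _ (by simp [K6])
  have hB : f (1, 0, 0) = 0 := h0 _ (by simp [K6])
  have hC : f (0, 3, 0) = 0 := h0 _ (by simp [K6])
  have hD : f (6, 1, 0) = 0 := h0 _ (by simp [K6])
  have hE : f (2, 2, 2) = 0 := h0 _ (by simp [K6])
  have hF : f (3, 5, -2) = 0 := h0 _ (by simp [K6])
  have key : ∀ (A B X : Pt) (a b : ℝ), IsRankOneDir (B - A) → 0 ≤ a → 0 ≤ b → a + b = 1 →
      X = a • A + b • B → f X ≤ a * f A + b * f B := by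
    intro A B X a b h ha hb hab hX
    rw [hX]
    exact hf.le h ha hb hab
  have dir : ∀ (A B : Pt), (A.1 = B.1 ∨ A.2.1 = B.2.1) → A ≠ B → IsRankOneDir (B - A) := by
    intro A B h hne
    refine ⟨sub_ne_zero.2 hne.symm, ?_⟩
    rcases h with h | h
    · simp [h]
    · simp [h]
  have e1 : f (1, 1, 0) ≤ 1 / 3 * f (1, 3, 0) + 2 / 3 * f (1, 0, 0) := by
    refine key _ _ _ _ _ (dir _ _ (Or.inl rfl) ?_) (by norm_num) (by norm_num) (by norm_num) ?_
    · intro h; simp only [Prod.mk.injEq] at h; norm_num at h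
    · simp only [Prod.smul_mk, Prod.mk_add_mk, smul_eq_mul]; norm_num
  have e2 : f (5, 1, 0) ≤ 1 / 5 * f (1, 1, 0) + 4 / 5 * f (6, 1, 0) := by
    refine key _ _ _ _ _ (dir _ _ (Or.inr rfl) ?_) (by norm_num) (by norm_num) (by norm_num) ?_
    · intro h; simp only [Prod.mk.injEq] at h; norm_num at h
    · simp only [Prod.smul_mk, Prod.mk_add_mk, smul_eq_mul]; norm_num
  have e3 : f (5, 2, -1) ≤ 1 / 2 * f (5, 1, 0) + 1 / 2 * f (5, 3, -2) := by
    refine key _ _ _ _ _ (dir _ _ (Or.inl rfl) ?_) (by norm_num) (by norm_num) (by norm_num) ?_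
    · intro h; simp only [Prod.mk.injEq] at h; norm_num at h
    · simp only [Prod.smul_mk, Prod.mk_add_mk, smul_eq_mul]; norm_num
  have e4 : f (3, 2, 1) ≤ 1 / 3 * f (5, 2, -1) + 2 / 3 * f (2, 2, 2) := by
    refine key _ _ _ _ _ (dir _ _ (Or.inr rfl) ?_) (by norm_num) (by norm_num) (by norm_num) ?_
    · intro h; simp only [Prod.mk.injEq] at h; norm_num at h
    · simp only [Prod.smul_mk, Prod.mk_add_mk, smul_eq_mul]; norm_num
  have e5 : f (3, 3, 0) ≤ 2 / 3 * f (3, 2, 1) + 1 / 3 * f (3, 5, -2) := by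
    refine key _ _ _ _ _ (dir _ _ (Or.inl rfl) ?_) (by norm_num) (by norm_num) (by norm_num) ?_
    · intro h; simp only [Prod.mk.injEq] at h; norm_num at h
    · simp only [Prod.smul_mk, Prod.mk_add_mk, smul_eq_mul]; norm_num
  have e6 : f (1, 3, 0) ≤ 1 / 3 * f (3, 3, 0) + 2 / 3 * f (0, 3, 0) := by
    refine key _ _ _ _ _ (dir _ _ (Or.inr rfl) ?_) (by norm_num) (by norm_num) (by norm_num) ?_
    · intro h; simp only [Prod.mk.injEq] at h; norm_num at h
    · simp only [Prod.smul_mk, Prod.mk_add_mk, smul_eq_mul]; norm_num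
  linarith

/-- Segments with rank-one direction lie in the hull of their endpoints. -/
lemma segment_subset_rcHull {A B : Pt} (h : IsRankOneDir (B - A)) {X : Pt}
    (hX : X ∈ segment ℝ A B) : X ∈ rcHull {A, B} := by
  obtain ⟨a, b, ha, hb, hab, rfl⟩ := hX
  intro f hf h0
  have := hf.le h ha hb hab
  rw [h0 A (by simp), h0 B (by simp)] at this
  simpa using this

lemma t4Step_subset {S T : Set Pt} (hST : S ⊆ T) : t4Step S ⊆ smallStep 5 T := by
  classical
  rintro X ((hX | ⟨K, -, hK, hX⟩) | ⟨A, hA, B, hB, hAB, hX⟩)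
  · exact Or.inl (hST hX)
  · refine Or.inr ⟨Finset.univ.image K, ?_, ?_, ?_⟩
    · exact (Finset.card_image_le).trans (by simp)
    · intro B hB
      simp only [Finset.mem_image, Finset.mem_univ, true_and] at hB
      obtain ⟨j, rfl⟩ := hB
      exact hST (hK j)
    · simpa using hX
  · refine Or.inr ⟨{A, B}, ?_, ?_, ?_⟩
    · exact (Finset.card_le_two).trans (by norm_num)
    · intro C hC
      simp only [Finset.mem_insert, Finset.mem_singleton] at hC
      rcases hC with rfl | rfl
      · exact hST hA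
      · exact hST hB
    · have := segment_subset_rcHull hAB hX
      simpa using this

lemma t4Iter_subset_smallIter (K : Set Pt) (i : ℕ) : t4Iter K i ⊆ smallIter 5 K i := by
  induction i with
  | zero => exact le_rfl
  | succ n ih => exact t4Step_subset ih

end Pool.Agent.Helper93.T4
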