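import Mathlib

/-! Definitions for the problem on rank-one convex hulls of upper triangular matrices.
The matrix `(x z; 0 y)` is the point `(x, y, z)`. -/

namespace Pool.Agent.Helper93.T4

open Set

/-- Upper triangular `2 × 2` matrices `(x z; 0 y)`, written `(x, y, z)`. -/
abbrev Pt := ℝ × ℝ × ℝ

/-- `(u, v, w)` is a rank-one direction: nonzero and `u v = 0`. -/
def IsRankOneDir (v : Pt) : Prop := v ≠ 0 ∧ v.1 * v.2.1 = 0

/-- `f` is convex on every line whose direction is a rank-one direction. -/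
def RankOneConvex (f : Pt → ℝ) : Prop :=
  ∀ A v : Pt, IsRankOneDir v → ConvexOn ℝ univ (fun t : ℝ => f (A + t • v))

/-- The rank-one convex hull. -/
def rcHull (K : Set Pt) : Set Pt :=
  {A | ∀ f : Pt → ℝ, RankOneConvex f → (∀ B ∈ K, f B = 0) → f A ≤ 0}

/-- `K 0, …, K 3` form a (possibly degenerate) `T₄` configuration. -/
def IsT4 (K : Fin 4 → Pt) : Prop :=
  ∃ (P : Pt) (C : Fin 4 → Pt) (α : Fin 4 → ℝ),
    (∀ j, IsRankOneDir (C j)) ∧ C 0 + C 1 + C 2 + C 3 = 0 ∧ (∀ j, 1 ≤ α j) ∧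
    K 0 = P + α 0 • C 0 ∧
    K 1 = P + C 0 + α 1 • C 1 ∧
    K 2 = P + C 0 + C 1 + α 2 • C 2 ∧
    K 3 = P + C 0 + C 1 + C 2 + α 3 • C 3

/-- One step `K^{(i)} ↦ K^{(i+1)}` of the `T₄` iteration. -/
def t4Step (S : Set Pt) : Set Pt :=
  S ∪ {X | ∃ K : Fin 4 → Pt, IsT4 K ∧ (∀ j, K j ∈ S) ∧ X ∈ rcHull (range K)} ∪
    {X | ∃ A ∈ S, ∃ B ∈ S, IsRankOneDir (B - A) ∧ X ∈ segment ℝ A B}

/-- `K^{(i)}`. -/
def t4Iter (K : Set Pt) : ℕ → Set Pt
  | 0 => K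
  | i + 1 => t4Step (t4Iter K i)

/-- The `T₄`-convex hull `⋃ i, K^{(i)}`. -/
def t4Hull (K : Set Pt) : Set Pt := ⋃ i, t4Iter K i

/-- One step of the iteration that adds the rank-one convex hulls of all subsets with at most
`m` points. -/
def smallStep (m : ℕ) (S : Set Pt) : Set Pt :=
  S ∪ {X | ∃ F : Finset Pt, F.card ≤ m ∧ (∀ B ∈ F, B ∈ S) ∧ X ∈ rcHull (F : Set Pt)}

/-- The iteration of `smallStep m`. -/
def smallIter (m : ℕ) (K : Set Pt) : ℕ → Set Pt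
  | 0 => K
  | i + 1 => smallStep m (smallIter m K i)

/-- The six-point set. -/
def K6 : Set Pt :=
  {(5, 3, -2), (1, 0, 0), (0, 3, 0), (6, 1, 0), (2, 2, 2), (3, 5, -2)}

end Pool.Agent.Helper93.T4
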