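import Pool.Agent.Helper93.T4.Basic

namespace Pool.Agent.Helper93.T4

open Set

/-- positive part of `t - a` -/
noncomputable def P (a t : ℝ) : ℝ := max (t - a) 0

lemma P_nonneg (a t : ℝ) : 0 ≤ P a t := le_max_right _ _

lemma P_of_le {a t : ℝ} (h : t ≤ a) : P a t = 0 := max_eq_right (by linarith)

lemma P_of_ge {a t : ℝ} (h : a ≤ t) : P a t = t - a := max_eq_left (by linarith)

lemma convexOn_P (a : ℝ) : ConvexOn ℝ univ (P a) := by
  have h1 : ConvexOn ℝ univ (fun t : ℝ => t - a) := by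
    refine ⟨convex_univ, ?_⟩
    intro x _ y _ s t _ _ hst
    simp only [smul_eq_mul]
    have : s = 1 - t := by linarith
    subst this
    apply le_of_eq; ring
  exact h1.sup (convexOn_const 0 convex_univ)

lemma hat_nonneg {a b c : ℝ} (hab : a < b) (hbc : b < c) (t : ℝ) :
    (P b t - P c t) * (b - a) ≤ (P a t - P b t) * (c - b) := by
  rcases le_total t a with h1 | h1
  · rw [P_of_le h1, P_of_le (h1.trans hab.le), P_of_le (h1.trans (hab.trans hbc).le)]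
    simp
  rcases le_total t b with h2 | h2
  · rw [P_of_ge h1, P_of_le h2, P_of_le (h2.trans hbc.le)]
    nlinarith
  rcases le_total t c with h3 | h3
  · rw [P_of_ge h1, P_of_ge h2, P_of_le h3]
    nlinarith
  · rw [P_of_ge h1, P_of_ge h2, P_of_ge h3]
    nlinarith

lemma P_sub_le {a b : ℝ} (hab : a < b) (t : ℝ) : P a t - P b t ≤ b - a := by
  rcases le_total t a with h1 | h1
  · rw [P_of_le h1, P_of_le (h1.trans hab.le)]; linarith
  rcases le_total t b with h2 | h2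
  · rw [P_of_ge h1, P_of_le h2]; linarith
  · rw [P_of_ge h1, P_of_ge h2]; linarith

lemma P_sub_nonneg {a b : ℝ} (hab : a < b) (t : ℝ) : 0 ≤ P a t - P b t := by
  rcases le_total t a with h1 | h1
  · rw [P_of_le h1, P_of_le (h1.trans hab.le)]; linarith
  rcases le_total t b with h2 | h2
  · rw [P_of_ge h1, P_of_le h2]; linarith
  · rw [P_of_ge h1, P_of_ge h2]; linarith

/-- hats in the `x` variable, nodes `0, 1, 2, 3, 5, 6` -/
noncomputable def hx (t : ℝ) : Fin 6 → ℝ :=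
  ![1 - (P 0 t - P 1 t), (P 0 t - P 1 t) - (P 1 t - P 2 t), (P 1 t - P 2 t) - (P 2 t - P 3 t),
    (P 2 t - P 3 t) - (P 3 t - P 5 t) / 2, (P 3 t - P 5 t) / 2 - (P 5 t - P 6 t), P 5 t - P 6 t]

/-- distance to `[0, 6]` -/
noncomputable def dx (t : ℝ) : ℝ := P 0 t - t + P 6 t

/-- hats in the `y` variable, nodes `0, 1, 2, 3, 5` -/
noncomputable def hy (t : ℝ) : Fin 5 → ℝ :=
  ![1 - (P 0 t - P 1 t), (P 0 t - P 1 t) - (P 1 t - P 2 t), (P 1 t - P 2 t) - (P 2 t - P 3 t),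
    (P 2 t - P 3 t) - (P 3 t - P 5 t) / 2, (P 3 t - P 5 t) / 2]

/-- distance to `[0, 5]` -/
noncomputable def dy (t : ℝ) : ℝ := P 0 t - t + P 5 t

lemma hx_nonneg (t : ℝ) (i : Fin 6) : 0 ≤ hx t i := by
  have h0 := P_sub_le (show (0:ℝ) < 1 by norm_num) t
  have h1 := hat_nonneg (show (0:ℝ) < 1 by norm_num) (show (1:ℝ) < 2 by norm_num) t
  have h2 := hat_nonneg (show (1:ℝ) < 2 by norm_num) (show (2:ℝ) < 3 by norm_num) t
  have h3 := hat_nonneg (show (2:ℝ) < 3 by norm_num) (show (3:ℝ) < 5 by norm_num) t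
  have h4 := hat_nonneg (show (3:ℝ) < 5 by norm_num) (show (5:ℝ) < 6 by norm_num) t
  have h5 := P_sub_nonneg (show (5:ℝ) < 6 by norm_num) t
  fin_cases i <;> simp only [hx, Fin.isValue, Matrix.cons_val, Fin.mk_one, Fin.zero_eta,
    Fin.reduceFinMk] <;> linarith

lemma hy_nonneg (t : ℝ) (i : Fin 5) : 0 ≤ hy t i := by
  have h0 := P_sub_le (show (0:ℝ) < 1 by norm_num) t
  have h1 := hat_nonneg (show (0:ℝ) < 1 by norm_num) (show (1:ℝ) < 2 by norm_num) t
  have h2 := hat_nonneg (show (1:ℝ) < 2 by norm_num) (show (2:ℝ) < 3 by norm_num) t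
  have h3 := hat_nonneg (show (2:ℝ) < 3 by norm_num) (show (3:ℝ) < 5 by norm_num) t
  have h4 := P_sub_nonneg (show (3:ℝ) < 5 by norm_num) t
  fin_cases i <;> simp only [hy, Fin.isValue, Matrix.cons_val, Fin.mk_one, Fin.zero_eta,
    Fin.reduceFinMk] <;> linarith

lemma dx_nonneg (t : ℝ) : 0 ≤ dx t := by
  have := P_nonneg 6 t
  have h : t - 0 ≤ P 0 t := le_max_left _ _
  unfold dx; linarith

lemma dy_nonneg (t : ℝ) : 0 ≤ dy t := by
  have := P_nonneg 5 t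
  have h : t - 0 ≤ P 0 t := le_max_left _ _
  unfold dy; linarith

lemma of_dx_eq_zero {t : ℝ} (h : dx t ≤ 0) : 0 ≤ t ∧ t ≤ 6 := by
  have h1 := P_nonneg 6 t
  have h2 : t - 0 ≤ P 0 t := le_max_left _ _
  have h3 := P_nonneg 0 t
  have h4 : t - 6 ≤ P 6 t := le_max_left _ _
  unfold dx at h
  constructor <;> linarith

lemma of_dy_eq_zero {t : ℝ} (h : dy t ≤ 0) : 0 ≤ t ∧ t ≤ 5 := by
  have h1 := P_nonneg 5 t
  have h2 : t - 0 ≤ P 0 t := le_max_left _ _
  have h3 := P_nonneg 0 t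
  have h4 : t - 5 ≤ P 5 t := le_max_left _ _
  unfold dy at h
  constructor <;> linarith

/-- nodes in the `x` variable -/
def nx : Fin 6 → ℕ := ![0, 1, 2, 3, 5, 6]

/-- nodes in the `y` variable -/
def ny : Fin 5 → ℕ := ![0, 1, 2, 3, 5]

lemma hx_cases {t : ℝ} (h0 : 0 ≤ t) (h6 : t ≤ 6) :
    (∃ i : Fin 6, t = nx i ∧ hx t i = 1) ∨ (∃ i : Fin 5, 0 < hx t i.castSucc ∧ 0 < hx t i.succ) := by
  rcases h0.eq_or_lt with e0 | l0
  · left; refine ⟨0, ?_, ?_⟩
    · simp [nx, ← e0]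
    · subst e0; simp [hx, P]
  rcases lt_trichotomy t 1 with l1 | e1 | g1
  · right; refine ⟨0, ?_, ?_⟩
    · show 0 < 1 - (P 0 t - P 1 t)
      rw [P_of_ge l0.le, P_of_le l1.le]; linarith
    · show 0 < (P 0 t - P 1 t) - (P 1 t - P 2 t)
      rw [P_of_ge l0.le, P_of_le l1.le, P_of_le (show t ≤ 2 by linarith)]; linarith
  · left; refine ⟨1, ?_, ?_⟩
    · simp [nx, e1]
    · show (P 0 t - P 1 t) - (P 1 t - P 2 t) = 1
      subst e1; norm_num [P]
  rcases lt_trichotomy t 2 with l2 | e2 | g2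
  · right; refine ⟨1, ?_, ?_⟩
    · show 0 < (P 0 t - P 1 t) - (P 1 t - P 2 t)
      rw [P_of_ge l0.le, P_of_ge g1.le, P_of_le l2.le]; linarith
    · show 0 < (P 1 t - P 2 t) - (P 2 t - P 3 t)
      rw [P_of_ge g1.le, P_of_le l2.le, P_of_le (show t ≤ 3 by linarith)]; linarith
  · left; refine ⟨2, ?_, ?_⟩
    · simp [nx, e2]
    · show (P 1 t - P 2 t) - (P 2 t - P 3 t) = 1
      subst e2; norm_num [P]
  rcases lt_trichotomy t 3 with l3 | e3 | g3
  · right; refine ⟨2, ?_, ?_⟩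
    · show 0 < (P 1 t - P 2 t) - (P 2 t - P 3 t)
      rw [P_of_ge g1.le, P_of_ge g2.le, P_of_le l3.le]; linarith
    · show 0 < (P 2 t - P 3 t) - (P 3 t - P 5 t) / 2
      rw [P_of_ge g2.le, P_of_le l3.le, P_of_le (show t ≤ 5 by linarith)]; linarith
  · left; refine ⟨3, ?_, ?_⟩
    · simp [nx, e3]
    · show (P 2 t - P 3 t) - (P 3 t - P 5 t) / 2 = 1
      subst e3; norm_num [P]
  rcases lt_trichotomy t 5 with l5 | e5 | g5
  · right; refine ⟨3, ?_, ?_⟩
    · show 0 < (P 2 t - P 3 t) - (P 3 t - P 5 t) / 2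
      rw [P_of_ge g2.le, P_of_ge g3.le, P_of_le l5.le]; linarith
    · show 0 < (P 3 t - P 5 t) / 2 - (P 5 t - P 6 t)
      rw [P_of_ge g3.le, P_of_le l5.le, P_of_le (show t ≤ 6 by linarith)]; linarith
  · left; refine ⟨4, ?_, ?_⟩
    · simp [nx, e5]
    · show (P 3 t - P 5 t) / 2 - (P 5 t - P 6 t) = 1
      subst e5; norm_num [P]
  rcases h6.lt_or_eq with l6 | e6
  · right; refine ⟨4, ?_, ?_⟩
    · show 0 < (P 3 t - P 5 t) / 2 - (P 5 t - P 6 t)
      rw [P_of_ge g3.le, P_of_ge g5.le, P_of_le l6.le]; linarith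
    · show 0 < P 5 t - P 6 t
      rw [P_of_ge g5.le, P_of_le l6.le]; linarith
  · left; refine ⟨5, ?_, ?_⟩
    · simp [nx, e6]
    · show P 5 t - P 6 t = 1
      subst e6; norm_num [P]

lemma hy_cases {t : ℝ} (h0 : 0 ≤ t) (h5 : t ≤ 5) :
    (∃ i : Fin 5, t = ny i ∧ hy t i = 1) ∨ (∃ i : Fin 4, 0 < hy t i.castSucc ∧ 0 < hy t i.succ) := by
  rcases h0.eq_or_lt with e0 | l0
  · left; refine ⟨0, ?_, ?_⟩
    · simp [ny, ← e0]
    · subst e0; simp [hy, P]
  rcases lt_trichotomy t 1 with l1 | e1 | g1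
  · right; refine ⟨0, ?_, ?_⟩
    · show 0 < 1 - (P 0 t - P 1 t)
      rw [P_of_ge l0.le, P_of_le l1.le]; linarith
    · show 0 < (P 0 t - P 1 t) - (P 1 t - P 2 t)
      rw [P_of_ge l0.le, P_of_le l1.le, P_of_le (show t ≤ 2 by linarith)]; linarith
  · left; refine ⟨1, ?_, ?_⟩
    · simp [ny, e1]
    · show (P 0 t - P 1 t) - (P 1 t - P 2 t) = 1
      subst e1; norm_num [P]
  rcases lt_trichotomy t 2 with l2 | e2 | g2
  · right; refine ⟨1, ?_, ?_⟩
    · show 0 < (P 0 t - P 1 t) - (P 1 t - P 2 t)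
      rw [P_of_ge l0.le, P_of_ge g1.le, P_of_le l2.le]; linarith
    · show 0 < (P 1 t - P 2 t) - (P 2 t - P 3 t)
      rw [P_of_ge g1.le, P_of_le l2.le, P_of_le (show t ≤ 3 by linarith)]; linarith
  · left; refine ⟨2, ?_, ?_⟩
    · simp [ny, e2]
    · show (P 1 t - P 2 t) - (P 2 t - P 3 t) = 1
      subst e2; norm_num [P]
  rcases lt_trichotomy t 3 with l3 | e3 | g3
  · right; refine ⟨2, ?_, ?_⟩
    · show 0 < (P 1 t - P 2 t) - (P 2 t - P 3 t)
      rw [P_of_ge g1.le, P_of_ge g2.le, P_of_le l3.le]; linarith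
    · show 0 < (P 2 t - P 3 t) - (P 3 t - P 5 t) / 2
      rw [P_of_ge g2.le, P_of_le l3.le, P_of_le (show t ≤ 5 by linarith)]; linarith
  · left; refine ⟨3, ?_, ?_⟩
    · simp [ny, e3]
    · show (P 2 t - P 3 t) - (P 3 t - P 5 t) / 2 = 1
      subst e3; norm_num [P]
  rcases h5.lt_or_eq with l5 | e5
  · right; refine ⟨3, ?_, ?_⟩
    · show 0 < (P 2 t - P 3 t) - (P 3 t - P 5 t) / 2
      rw [P_of_ge g2.le, P_of_ge g3.le, P_of_le l5.le]; linarith
    · show 0 < (P 3 t - P 5 t) / 2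
      rw [P_of_ge g3.le, P_of_le l5.le]; linarith
  · left; refine ⟨4, ?_, ?_⟩
    · simp [ny, e5]
    · show (P 3 t - P 5 t) / 2 = 1
      subst e5; norm_num [P]

/-- values at the nodes -/
lemma hx_node (i j : Fin 6) : hx (nx i) j = if i = j then 1 else 0 := by
  fin_cases i <;> fin_cases j <;> norm_num [hx, nx, P]

lemma hy_node (i j : Fin 5) : hy (ny i) j = if i = j then 1 else 0 := by
  fin_cases i <;> fin_cases j <;> norm_num [hy, ny, P]

lemma dx_node (i : Fin 6) : dx (nx i) = 0 := by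
  fin_cases i <;> norm_num [dx, nx, P]

lemma dy_node (i : Fin 5) : dy (ny i) = 0 := by
  fin_cases i <;> norm_num [dy, ny, P]

/-- one-dimensional concavity in the `x` direction -/
lemma concave_x (c : Fin 6 → ℝ) (M : ℝ) (h0 : c 1 - c 0 ≤ M) (h1 : c 2 - c 1 ≤ c 1 - c 0)
    (h2 : c 3 - c 2 ≤ c 2 - c 1) (h3 : c 4 - c 3 ≤ 2 * (c 3 - c 2))
    (h4 : 2 * (c 5 - c 4) ≤ c 4 - c 3) (h5 : -M ≤ c 5 - c 4) :
    ConcaveOn ℝ univ (fun t => ∑ i, c i * hx t i - M * dx t) := by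
  have key : (fun t => ∑ i, c i * hx t i - M * dx t) = fun t =>
      (c 0 + M * t) - ((M - (c 1 - c 0)) * P 0 t + ((c 1 - c 0) - (c 2 - c 1)) * P 1 t
        + ((c 2 - c 1) - (c 3 - c 2)) * P 2 t + ((c 3 - c 2) - (c 4 - c 3) / 2) * P 3 t
        + ((c 4 - c 3) / 2 - (c 5 - c 4)) * P 5 t + ((c 5 - c 4) + M) * P 6 t) := by
    funext t
    rw [Fin.sum_univ_six]
    simp only [hx, dx, Matrix.cons_val]
    ring
  rw [key]
  have lin : ConcaveOn ℝ univ (fun t : ℝ => c 0 + M * t) := by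
    refine ⟨convex_univ, ?_⟩
    intro x _ y _ s t _ _ hst
    simp only [smul_eq_mul]
    have : s = 1 - t := by linarith
    subst this
    apply le_of_eq; ring
  refine lin.sub (((((?_ : ConvexOn ℝ univ _).add ?_).add ?_).add ?_).add ?_ |>.add ?_)
  all_goals
    refine (convexOn_P _).smul ?_
    linarith

/-- one-dimensional concavity in the `y` direction -/
lemma concave_y (c : Fin 5 → ℝ) (M : ℝ) (h0 : c 1 - c 0 ≤ M) (h1 : c 2 - c 1 ≤ c 1 - c 0)
    (h2 : c 3 - c 2 ≤ c 2 - c 1) (h3 : c 4 - c 3 ≤ 2 * (c 3 - c 2))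
    (h4 : -(2 * M) ≤ c 4 - c 3) :
    ConcaveOn ℝ univ (fun t => ∑ i, c i * hy t i - M * dy t) := by
  have key : (fun t => ∑ i, c i * hy t i - M * dy t) = fun t =>
      (c 0 + M * t) - ((M - (c 1 - c 0)) * P 0 t + ((c 1 - c 0) - (c 2 - c 1)) * P 1 t
        + ((c 2 - c 1) - (c 3 - c 2)) * P 2 t + ((c 3 - c 2) - (c 4 - c 3) / 2) * P 3 t
        + ((c 4 - c 3) / 2 + M) * P 5 t) := by
    funext t
    rw [Fin.sum_univ_five]
    simp only [hy, dy, Matrix.cons_val]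
    ring
  rw [key]
  have lin : ConcaveOn ℝ univ (fun t : ℝ => c 0 + M * t) := by
    refine ⟨convex_univ, ?_⟩
    intro x _ y _ s t _ _ hst
    simp only [smul_eq_mul]
    have : s = 1 - t := by linarith
    subst this
    apply le_of_eq; ring
  refine lin.sub ((((?_ : ConvexOn ℝ univ _).add ?_).add ?_).add ?_ |>.add ?_)
  all_goals
    refine (convexOn_P _).smul ?_
    linarith

end Pool.Agent.Helper93.T4
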