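import Pool.Agent.Helper93.T4.Hats

namespace Pool.Agent.Helper93.T4

open Set

/-- The piecewise bilinear function with matrix of nodal values `A` and outer slope `M`. -/
noncomputable def Phi (A : Fin 6 → Fin 5 → ℤ) (M : ℤ) (x y : ℝ) : ℝ :=
  ∑ i, ∑ j, (A i j : ℝ) * (hx x i * hy y j) - M * (dx x + dy y)

/-- discrete concavity in each variable -/
def Good (A : Fin 6 → Fin 5 → ℤ) (M : ℤ) : Prop :=
  (∀ j, A 1 j - A 0 j ≤ M ∧ A 2 j - A 1 j ≤ A 1 j - A 0 j ∧ A 3 j - A 2 j ≤ A 2 j - A 1 j ∧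
    A 4 j - A 3 j ≤ 2 * (A 3 j - A 2 j) ∧ 2 * (A 5 j - A 4 j) ≤ A 4 j - A 3 j ∧
    -M ≤ A 5 j - A 4 j) ∧
  (∀ i, A i 1 - A i 0 ≤ M ∧ A i 2 - A i 1 ≤ A i 1 - A i 0 ∧ A i 3 - A i 2 ≤ A i 2 - A i 1 ∧
    A i 4 - A i 3 ≤ 2 * (A i 3 - A i 2) ∧ -(2 * M) ≤ A i 4 - A i 3)

instance (A : Fin 6 → Fin 5 → ℤ) (M : ℤ) : Decidable (Good A M) := by
  unfold Good; infer_instance

lemma sum_hx (t : ℝ) : ∑ i, hx t i = 1 := by
  rw [Fin.sum_univ_six]
  simp only [hx, Matrix.cons_val]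
  ring

lemma sum_hy (t : ℝ) : ∑ i, hy t i = 1 := by
  rw [Fin.sum_univ_five]
  simp only [hy, Matrix.cons_val]
  ring

lemma Phi_concave_x {A : Fin 6 → Fin 5 → ℤ} {M : ℤ} (h : Good A M) (y : ℝ) :
    ConcaveOn ℝ univ (fun x => Phi A M x y) := by
  have e : (fun x => Phi A M x y) = fun x =>
      (∑ i, (∑ j, (A i j : ℝ) * hy y j) * hx x i - (M : ℝ) * dx x) + (-(M * dy y)) := by
    funext x
    simp only [Phi, Finset.sum_mul]
    have : ∑ i, ∑ j, (A i j : ℝ) * (hx x i * hy y j) = ∑ i, ∑ j, (A i j : ℝ) * hy y j * hx x i :=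
      Finset.sum_congr rfl fun i _ => Finset.sum_congr rfl fun j _ => by ring
    rw [this]; ring
  rw [e]
  refine ConcaveOn.add ?_ (concaveOn_const _ convex_univ)
  have key : ∀ (l r : Fin 5 → ℝ), (∀ j, l j ≤ r j) → ∑ j, l j * hy y j ≤ ∑ j, r j * hy y j :=
    fun l r hlr => Finset.sum_le_sum fun j _ => mul_le_mul_of_nonneg_right (hlr j) (hy_nonneg y j)
  have hs : (M : ℝ) = ∑ j : Fin 5, (M : ℝ) * hy y j := by
    rw [← Finset.mul_sum, sum_hy, mul_one]
  have h' : ∀ j, (A 1 j : ℝ) - A 0 j ≤ M ∧ (A 2 j : ℝ) - A 1 j ≤ A 1 j - A 0 j ∧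
      (A 3 j : ℝ) - A 2 j ≤ A 2 j - A 1 j ∧ (A 4 j : ℝ) - A 3 j ≤ 2 * (A 3 j - A 2 j) ∧
      2 * ((A 5 j : ℝ) - A 4 j) ≤ A 4 j - A 3 j ∧ -(M : ℝ) ≤ A 5 j - A 4 j := by
    intro j
    have := h.1 j
    exact_mod_cast this
  apply concave_x
  · have := key _ _ (fun j => (h' j).1)
    rw [← hs] at this
    simpa only [sub_mul, Finset.sum_sub_distrib] using this
  · have := key _ _ (fun j => (h' j).2.1)
    simpa only [sub_mul, Finset.sum_sub_distrib] using this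
  · have := key _ _ (fun j => (h' j).2.2.1)
    simpa only [sub_mul, Finset.sum_sub_distrib] using this
  · have := key _ _ (fun j => (h' j).2.2.2.1)
    simpa only [mul_assoc, ← Finset.mul_sum, sub_mul, Finset.sum_sub_distrib] using this
  · have := key _ _ (fun j => (h' j).2.2.2.2.1)
    simpa only [mul_assoc, ← Finset.mul_sum, sub_mul, Finset.sum_sub_distrib] using this
  · have := key _ _ (fun j => (h' j).2.2.2.2.2)
    simp only [neg_mul, Finset.sum_neg_distrib] at this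
    rw [← hs] at this
    simpa only [sub_mul, Finset.sum_sub_distrib] using this

lemma Phi_concave_y {A : Fin 6 → Fin 5 → ℤ} {M : ℤ} (h : Good A M) (x : ℝ) :
    ConcaveOn ℝ univ (fun y => Phi A M x y) := by
  have e : (fun y => Phi A M x y) = fun y =>
      (∑ j, (∑ i, (A i j : ℝ) * hx x i) * hy y j - (M : ℝ) * dy y) + (-(M * dx x)) := by
    funext y
    simp only [Phi, Finset.sum_mul]
    have : ∑ i, ∑ j, (A i j : ℝ) * (hx x i * hy y j) = ∑ j, ∑ i, (A i j : ℝ) * hx x i * hy y j := by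
      rw [Finset.sum_comm]
      exact Finset.sum_congr rfl fun i _ => Finset.sum_congr rfl fun j _ => by ring
    rw [this]; ring
  rw [e]
  refine ConcaveOn.add ?_ (concaveOn_const _ convex_univ)
  have key : ∀ (l r : Fin 6 → ℝ), (∀ j, l j ≤ r j) → ∑ j, l j * hx x j ≤ ∑ j, r j * hx x j :=
    fun l r hlr => Finset.sum_le_sum fun j _ => mul_le_mul_of_nonneg_right (hlr j) (hx_nonneg x j)
  have hs : (M : ℝ) = ∑ j : Fin 6, (M : ℝ) * hx x j := by
    rw [← Finset.mul_sum, sum_hx, mul_one]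
  have h' : ∀ i, (A i 1 : ℝ) - A i 0 ≤ M ∧ (A i 2 : ℝ) - A i 1 ≤ A i 1 - A i 0 ∧
      (A i 3 : ℝ) - A i 2 ≤ A i 2 - A i 1 ∧ (A i 4 : ℝ) - A i 3 ≤ 2 * (A i 3 - A i 2) ∧
      -(2 * (M : ℝ)) ≤ A i 4 - A i 3 := by
    intro j
    have := h.2 j
    exact_mod_cast this
  apply concave_y
  · have := key _ _ (fun j => (h' j).1)
    rw [← hs] at this
    simpa only [sub_mul, Finset.sum_sub_distrib] using this
  · have := key _ _ (fun j => (h' j).2.1)
    simpa only [sub_mul, Finset.sum_sub_distrib] using this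
  · have := key _ _ (fun j => (h' j).2.2.1)
    simpa only [sub_mul, Finset.sum_sub_distrib] using this
  · have := key _ _ (fun j => (h' j).2.2.2.1)
    simpa only [mul_assoc, ← Finset.mul_sum, sub_mul, Finset.sum_sub_distrib] using this
  · have := key _ _ (fun j => (h' j).2.2.2.2)
    simp only [neg_mul, Finset.sum_neg_distrib, mul_assoc, ← Finset.mul_sum, sub_mul,
      Finset.sum_sub_distrib, sum_hx, mul_one] at this
    simpa only [sub_mul, Finset.sum_sub_distrib] using this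

lemma Phi_node (A : Fin 6 → Fin 5 → ℤ) (M : ℤ) (a : Fin 6) (b : Fin 5) :
    Phi A M (nx a) (ny b) = A a b := by
  simp [Phi, hx_node, hy_node, dx_node, dy_node]

/-- nodal values, multiplied by `600` -/
def m0 : Fin 6 → Fin 5 → ℤ := ![
  ![-14400, -7200, -3000, 0, -24000],
  ![0, 0, 0, 0, -12000],
  ![-2400, 0, 1200, 0, -4800],
  ![-6000, 0, 600, 0, -1200],
  ![-18000, 0, -600, -1200, -9600],
  ![-27000, 0, -2400, -6000, -24000]]

def hA : Fin 6 → Fin 5 → ℤ := ![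
  ![2, 2, 2, 0, 2],
  ![0, 10, 20, 30, 2],
  ![2, 8, 0, 60, 2],
  ![2, 6, 135, 90, 0],
  ![2, 2, 405, 808, 2],
  ![2, 0, 2, 2, 2]]

def hB : Fin 6 → Fin 5 → ℤ := ![
  ![2, 2, 2, 0, 2],
  ![404, 270, 136, 2, 2],
  ![2, 216, 0, 4, 2],
  ![2, 162, 9, 6, 0],
  ![2, 54, 27, 0, 2],
  ![2, 0, 2, 2, 2]]

def hC : Fin 6 → Fin 5 → ℤ := ![
  ![2, 2, 2, 404, 2],
  ![0, 90, 180, 270, 2],
  ![2, 72, 0, 136, 2],
  ![2, 54, 3, 2, 0],
  ![2, 18, 9, 0, 2],
  ![2, 0, 2, 2, 2]]

def hD : Fin 6 → Fin 5 → ℤ := ![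
  ![2, 2, 2, 0, 2],
  ![0, 2, 4, 6, 2],
  ![2, 42, 0, 12, 2],
  ![2, 82, 27, 18, 0],
  ![2, 162, 81, 0, 2],
  ![2, 202, 2, 2, 2]]

def hE : Fin 6 → Fin 5 → ℤ := ![
  ![2, 2, 2, 0, 2],
  ![0, 20, 40, 60, 2],
  ![2, 16, 404, 120, 2],
  ![2, 12, 270, 180, 0],
  ![2, 4, 2, 0, 2],
  ![2, 0, 2, 2, 2]]

def hF : Fin 6 → Fin 5 → ℤ := ![
  ![2, 2, 2, 0, 2],
  ![0, 60, 120, 180, 2],
  ![2, 48, 0, 360, 2],
  ![2, 36, 2, 540, 1616],
  ![2, 12, 6, 0, 2],
  ![2, 0, 2, 2, 2]]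

/-- the perturbations, indexed by the `x`-node of the omitted point -/
def H : Fin 6 → Fin 6 → Fin 5 → ℤ := ![hC, hB, hE, hF, hA, hD]

/-- the `y`-node of the point of `K6` over the given `x`-node -/
def bj : Fin 6 → Fin 5 := ![3, 0, 2, 4, 3, 1]

/-- its `z`-coordinate -/
def zc : Fin 6 → ℤ := ![0, 0, 2, -2, -2, 0]

/-- the six points -/
def pt (a : Fin 6) : Pt := ((nx a : ℝ), (ny (bj a) : ℝ), (zc a : ℝ))

lemma pt_0 : pt 0 = (0, 3, 0) := by
  simp only [pt, nx, ny, bj, zc, Matrix.cons_val]; norm_num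
lemma pt_1 : pt 1 = (1, 0, 0) := by
  simp only [pt, nx, ny, bj, zc, Matrix.cons_val]; norm_num
lemma pt_2 : pt 2 = (2, 2, 2) := by
  simp only [pt, nx, ny, bj, zc, Matrix.cons_val]; norm_num
lemma pt_3 : pt 3 = (3, 5, -2) := by
  simp only [pt, nx, ny, bj, zc, Matrix.cons_val]; norm_num
lemma pt_4 : pt 4 = (5, 3, -2) := by
  simp only [pt, nx, ny, bj, zc, Matrix.cons_val]; norm_num
lemma pt_5 : pt 5 = (6, 1, 0) := by
  simp only [pt, nx, ny, bj, zc, Matrix.cons_val]; norm_num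

lemma mem_K6_iff (X : Pt) : X ∈ K6 ↔ ∃ a, X = pt a := by
  constructor
  · intro h
    simp only [K6, mem_insert_iff, mem_singleton_iff] at h
    rcases h with h | h | h | h | h | h
    · exact ⟨4, by rw [h, pt_4]⟩
    · exact ⟨1, by rw [h, pt_1]⟩
    · exact ⟨0, by rw [h, pt_0]⟩
    · exact ⟨5, by rw [h, pt_5]⟩
    · exact ⟨2, by rw [h, pt_2]⟩
    · exact ⟨3, by rw [h, pt_3]⟩
  · rintro ⟨a, rfl⟩
    fin_cases a
    · show pt 0 ∈ K6
      rw [pt_0]; simp [K6]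
    · show pt 1 ∈ K6
      rw [pt_1]; simp [K6]
    · show pt 2 ∈ K6
      rw [pt_2]; simp [K6]
    · show pt 3 ∈ K6
      rw [pt_3]; simp [K6]
    · show pt 4 ∈ K6
      rw [pt_4]; simp [K6]
    · show pt 5 ∈ K6
      rw [pt_5]; simp [K6]

lemma pt_injective : Function.Injective pt := by
  intro a b h
  have h1 : (nx a : ℝ) = nx b := congrArg Prod.fst h
  have h2 : nx a = nx b := by exact_mod_cast h1
  revert h2
  revert a b
  have : ∀ a b : Fin 6, nx a = nx b → a = b := by decide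
  intro a b _ _
  exact this a b

lemma good0 : Good m0 30000 := by decide

lemma goodH : ∀ k, Good (fun i j => m0 i j - H k i j) 30600 := by decide

lemma H_nonneg : ∀ k i j, 0 ≤ H k i j := by decide

lemma H_pos : ∀ k i j, j ≠ bj i → 0 < H k i j := by decide

lemma H_zero : ∀ k a, a ≠ k → H k a (bj a) = 0 := by decide

lemma m0_pt : ∀ a, m0 a (bj a) = 600 * zc a := by decide

lemma bj_adj : ∀ i : Fin 5, bj i.castSucc ≠ bj i.succ := by decide

/-- the main function -/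
noncomputable def g0 (X : Pt) : ℝ := 600 * X.2.2 - Phi m0 30000 X.1 X.2.1

/-- the function separating `K6` minus one point -/
noncomputable def gk (k : Fin 6) (X : Pt) : ℝ :=
  600 * X.2.2 - Phi (fun i j => m0 i j - H k i j) 30600 X.1 X.2.1

lemma g0_conv : RankOneConvex g0 :=
  rankOneConvex_sub 600 (fun y => Phi_concave_x good0 y) (fun x => Phi_concave_y good0 x)

lemma gk_conv (k : Fin 6) : RankOneConvex (gk k) :=
  rankOneConvex_sub 600 (fun y => Phi_concave_x (goodH k) y) (fun x => Phi_concave_y (goodH k) x)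

lemma g0_pt (a : Fin 6) : g0 (pt a) = 0 := by
  simp only [g0, pt]
  rw [Phi_node, m0_pt]
  push_cast; ring

lemma gk_pt (k a : Fin 6) (h : a ≠ k) : gk k (pt a) = 0 := by
  simp only [gk, pt]
  rw [Phi_node, m0_pt, H_zero k a h]
  push_cast; ring

lemma Phi_sub (k : Fin 6) (x y : ℝ) :
    Phi (fun i j => m0 i j - H k i j) 30600 x y = Phi m0 30000 x y
      - ∑ i, ∑ j, (H k i j : ℝ) * (hx x i * hy y j) - 600 * (dx x + dy y) := by
  simp only [Phi]
  push_cast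
  simp only [sub_mul, Finset.sum_sub_distrib]
  ring

lemma term_nonneg (k : Fin 6) (x y : ℝ) (i : Fin 6) (j : Fin 5) :
    0 ≤ (H k i j : ℝ) * (hx x i * hy y j) :=
  mul_nonneg (by exact_mod_cast H_nonneg k i j) (mul_nonneg (hx_nonneg x i) (hy_nonneg y j))

lemma eq_case (k : Fin 6) (x y : ℝ)
    (h1 : ∑ i, ∑ j, (H k i j : ℝ) * (hx x i * hy y j) ≤ 0) (h2 : dx x + dy y ≤ 0) :
    ∃ a, x = nx a ∧ y = ny (bj a) := by
  have hx0 := dx_nonneg x
  have hy0 := dy_nonneg y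
  obtain ⟨x0, x6⟩ := of_dx_eq_zero (show dx x ≤ 0 by linarith)
  obtain ⟨y0, y5⟩ := of_dy_eq_zero (show dy y ≤ 0 by linarith)
  have hsum : ∑ i, ∑ j, (H k i j : ℝ) * (hx x i * hy y j) = 0 :=
    le_antisymm h1 (Finset.sum_nonneg fun i _ => Finset.sum_nonneg fun j _ => term_nonneg k x y i j)
  rw [Finset.sum_eq_zero_iff_of_nonneg
    (fun i _ => Finset.sum_nonneg fun j _ => term_nonneg k x y i j)] at hsum
  have key : ∀ i j, 0 < hx x i → 0 < hy y j → j = bj i := by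
    intro i j hi hj
    by_contra hne
    have := hsum i (Finset.mem_univ i)
    rw [Finset.sum_eq_zero_iff_of_nonneg (fun j _ => term_nonneg k x y i j)] at this
    have h3 := this j (Finset.mem_univ j)
    have h4 : (0:ℝ) < H k i j := by exact_mod_cast H_pos k i j hne
    have h5 : 0 < (H k i j : ℝ) * (hx x i * hy y j) := mul_pos h4 (mul_pos hi hj)
    exact h5.ne' h3
  have hyex : ∃ b, 0 < hy y b := by
    rcases hy_cases y0 y5 with ⟨b, -, hb⟩ | ⟨b, hb, -⟩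
    · exact ⟨b, by rw [hb]; norm_num⟩
    · exact ⟨_, hb⟩
  rcases hx_cases x0 x6 with ⟨a, ha, ha1⟩ | ⟨i, hi, hi'⟩
  · refine ⟨a, ha, ?_⟩
    have ha2 : 0 < hx x a := by rw [ha1]; norm_num
    rcases hy_cases y0 y5 with ⟨b, hb, hb1⟩ | ⟨b, hb, hb'⟩
    · have := key a b ha2 (by rw [hb1]; norm_num)
      rw [← this]; exact hb
    · exfalso
      have e1 := key a _ ha2 hb
      have e2 := key a _ ha2 hb'
      have e3 : b.castSucc = b.succ := e1.trans e2.symm
      exact (Fin.castSucc_lt_succ (i := b)).ne e3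
  · exfalso
    obtain ⟨b, hb⟩ := hyex
    have e1 := key _ _ hi hb
    have e2 := key _ _ hi' hb
    exact bj_adj i (e1.symm.trans e2)

/-- the invariant of the iteration -/
lemma step_inv {S : Set Pt} (hS : ∀ Y ∈ S, Y ∈ K6 ∨ g0 Y < 0) :
    ∀ Y ∈ smallStep 5 S, Y ∈ K6 ∨ g0 Y < 0 := by
  rintro X (hX | ⟨F, hF, hFS, hX⟩)
  · exact hS X hX
  have hle : ∀ B ∈ F, g0 B ≤ 0 := by
    intro B hB
    rcases hS B (hFS B hB) with h | h
    · obtain ⟨a, rfl⟩ := (mem_K6_iff B).1 h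
      exact (g0_pt a).le
    · exact h.le
  have hX0 : g0 X ≤ 0 := rcHull_le g0_conv (fun B hB => hle B hB) hX
  rcases hX0.lt_or_eq with h | heq
  · exact Or.inr h
  left
  have hX' := rcHull_face g0_conv hle hX heq
  -- a missing point
  obtain ⟨k, hk⟩ : ∃ k, pt k ∉ F := by
    by_contra hcon
    push Not at hcon
    have : (Finset.univ.image pt) ⊆ F := by
      intro B hB
      simp only [Finset.mem_image, Finset.mem_univ, true_and] at hB
      obtain ⟨a, rfl⟩ := hB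
      exact hcon a
    have hc := Finset.card_le_card this
    rw [Finset.card_image_of_injective _ pt_injective] at hc
    simp at hc
    omega
  have hgk : gk k X ≤ 0 := by
    refine rcHull_le (gk_conv k) ?_ hX'
    rintro B ⟨hB, hB0⟩
    rcases hS B (hFS B hB) with h | h
    · obtain ⟨a, rfl⟩ := (mem_K6_iff B).1 h
      have hak : a ≠ k := by
        rintro rfl
        exact hk hB
      exact (gk_pt k a hak).le
    · rw [hB0] at h
      exact absurd h (lt_irrefl _)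
  have hd : 0 ≤ dx X.1 + dy X.2.1 := add_nonneg (dx_nonneg _) (dy_nonneg _)
  have hs : 0 ≤ ∑ i, ∑ j, (H k i j : ℝ) * (hx X.1 i * hy X.2.1 j) :=
    Finset.sum_nonneg fun i _ => Finset.sum_nonneg fun j _ => term_nonneg k _ _ i j
  simp only [gk, g0] at hgk heq
  rw [Phi_sub] at hgk
  obtain ⟨a, ha, hb⟩ := eq_case k X.1 X.2.1 (by linarith) (by linarith)
  rw [mem_K6_iff]
  refine ⟨a, ?_⟩
  rw [ha, hb, Phi_node, m0_pt] at heq
  push_cast at heq
  have hz : X.2.2 = zc a := by linarith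
  exact Prod.ext ha (Prod.ext hb hz)

lemma smallIter_inv (i : ℕ) : ∀ Y ∈ smallIter 5 K6 i, Y ∈ K6 ∨ g0 Y < 0 := by
  induction i with
  | zero => intro Y hY; exact Or.inl hY
  | succ n ih => exact step_inv ih

lemma not_mem_smallIter (i : ℕ) : ((1, 1, 0) : Pt) ∉ smallIter 5 K6 i := by
  intro h
  rcases smallIter_inv i _ h with h | h
  · simp only [K6, mem_insert_iff, mem_singleton_iff, Prod.mk.injEq] at h
    norm_num at h
  · have e : g0 ((1, 1, 0) : Pt) = 0 := by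
      simp only [g0]
      have := Phi_node m0 30000 1 1
      simp only [nx, ny, Matrix.cons_val, Nat.cast_one] at this
      rw [this]
      simp [m0]
    rw [e] at h
    exact absurd h (lt_irrefl _)

end Pool.Agent.Helper93.T4
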